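import Pool.Agent.Q276.CD.AllQ
import Pool.Agent.Q276.CD.Shift

set_option autoImplicit false

/-!
# Selberg's central limit theorem for `log |ζ(1/2 + it)|` in the range of Cramér

Unconditionally, with `u` uniformly distributed on `[0, 1]`, the probability that
`log |ζ(1/2 + ix + iuT)| > v √((1/2) log log T)` equals the tail `1 - Φ(v)` of the standard normal law up to
a relative error of at most `C (1 + v) (log log log T) ^ 5 / √(log log T)`, uniformly for
`0 ≤ v ≤ c √(log log T) / (log log log T) ^ 5`.

The values of this size are the ones that make up the moments `𝔼 |ζ| ^ β` of all orders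
`β = β(T) ≤ c' / (log log log T) ^ 5`.

The proof (project CD of the team library): with `A` a truncated exponential of `k ∑ p^(-s)` over the primes up to
`T ^ (1 / (log log T) ^ 4)` and with the weight `|A|²`, an upper bound for the twisted second moment of zeta bounds
`|ζ|` from above by the exponential of the prime sum; the mean square of `ζ A M`, `M` a Moebius mollifier, on and
to the right of the critical line and a Remez inequality for analytic functions bound `|ζ|` from below; the prime sum
has moderate deviations by its characteristic function under the exponentially tilted measure.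
-/

open MeasureTheory ProbabilityTheory Filter

theorem Pool.Agent.Results.MP_f9aece_nt.CramerRange.result :
    ∃ c C : ℝ, 0 < c ∧ 0 < C ∧ ∀ x : ℝ, ∀ᶠ T : ℝ in atTop, ∀ v : ℝ, 0 ≤ v →
      v ≤ c * √(Real.log (Real.log T)) / Real.log (Real.log (Real.log T)) ^ 5 →
      |volume.real {u : ℝ | u ∈ Set.Icc (0:ℝ) 1 ∧ v * √(Real.log (Real.log T) / 2) <
          Real.log ‖riemannZeta (1 / 2 + x * Complex.I + u * T * Complex.I)‖} -
        (gaussianReal 0 1).real (Set.Ioi v)| ≤
      C * (1 + v) * Real.log (Real.log (Real.log T)) ^ 5 / √(Real.log (Real.log T)) *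
        (gaussianReal 0 1).real (Set.Ioi v) := by
  obtain ⟨c, C, hc, hC, h⟩ := Pool.Agent.Q276.CD.Sf.t_SHIFT Pool.Agent.Q276.CD.cramerq
  refine ⟨c, C, hc, hC, fun x => ?_⟩
  filter_upwards [h x] with T hT v hv hv2
  have e : (gaussianReal 0 1).real (Set.Ioi v) = 1 - Pool.Agent.Q276.CD.Phi v := by
    rw [Pool.Agent.Q276.CD.Phi, ← Set.compl_Iic, probReal_compl_eq_one_sub measurableSet_Iic]
  have h1 := hT v hv hv2
  rw [e]
  refine h1.trans (le_of_eq ?_)
  unfold Pool.Agent.Q276.CD.l3 Pool.Agent.Q276.CD.V
  ring
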