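import Pool.Agent.Q80.EW.FinX
import Pool.Agent.Q80.EW.Stm4
import Pool.Agent.Q251.EW.Cor
import Pool.Agent.Q251.EW.EF

set_option autoImplicit false

/-!
The law of the values of zeta under its mean square over windows of all lengths on the critical
line.
-/

namespace Pool.Agent.Results.MP_f9aece_nt.ErfLawValues

open Filter Topology MeasureTheory

noncomputable section

/-- zeta on the critical line -/
def z (u : ℝ) : ℂ := riemannZeta ((1 / 2 : ℂ) + (u : ℂ) * Complex.I)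

/-- the normalised mean square of zeta over the window `[t, t + U]` on the critical line -/
def windowMean (U T t : ℝ) : ℝ :=
  1 / (U * Real.log T) * ∫ u in t..(t + U), ‖z u‖ ^ 2

/-- the part of the mean square over the window `[t, t + U]` that comes from the points where
`|zeta| ≤ exp (x √(log log T)) log T` -/
def valueMean (U T x t : ℝ) : ℝ :=
  1 / (U * Real.log T) * ∫ u in t..(t + U),
    Set.indicator {s | ‖z s‖ ≤ Real.exp (x * Real.sqrt (Real.log (Real.log T))) * Real.log T}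
      (fun s => ‖z s‖ ^ 2) u

/-- the error function `erf b = (2 / √π) ∫_0^b exp(-x²) dx` -/
def erf (b : ℝ) : ℝ := 2 / Real.sqrt Real.pi * ∫ x in (0 : ℝ)..b, Real.exp (-x ^ 2)

/-- the joint law of maximum and end point of a Brownian motion with variance `s / 2` at time `s`,
`0 ≤ s ≤ 1`: the probability of (maximum at most `b`, end point at most `x`) -/
def law (b x : ℝ) : ℝ := (erf (min x b) - erf (min x b - 2 * b)) / 2

theorem result :
    (∀ ε : ℝ, 0 < ε → ∀ᶠ T : ℝ in atTop, ∀ U : ℝ, 1 ≤ U → U ≤ T →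
      (volume {t : ℝ | t ∈ Set.Icc T (2 * T) ∧ ∃ x : ℝ,
        ε < |valueMean U T x t - law (Real.log U / (2 * Real.sqrt (Real.log (Real.log T)))) x|}).toReal
          ≤ ε * T) ∧
    (∀ ε : ℝ, 0 < ε → ∀ᶠ T : ℝ in atTop, ∀ U : ℝ, 1 ≤ U → U ≤ T →
      (volume {t : ℝ | t ∈ Set.Icc T (2 * T) ∧
        ε < |windowMean U T t - erf (Real.log U / (2 * Real.sqrt (Real.log (Real.log T))))|}).toReal
          ≤ ε * T) ∧
    (∀ q ε : ℝ, 0 < q → q < 1 → 0 < ε → ∀ᶠ T : ℝ in atTop, ∀ U : ℝ, 1 ≤ U → U ≤ T →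
      |1 / T * (∫ t in T..(2 * T), windowMean U T t ^ q) -
        erf (Real.log U / (2 * Real.sqrt (Real.log (Real.log T)))) ^ q| ≤ ε) ∧
    (∀ U : ℝ → ℝ, (∀ T : ℝ, 1 ≤ T → 1 ≤ U T ∧ U T ≤ T) →
      ((∀ ε : ℝ, 0 < ε → Tendsto (fun T : ℝ => (volume {t : ℝ | t ∈ Set.Icc T (2 * T) ∧
          ε < |windowMean (U T) T t - 1|}).toReal / T) atTop (𝓝 0)) ↔
        Tendsto (fun T : ℝ => Real.log (U T) / Real.sqrt (Real.log (Real.log T))) atTop atTop) ∧
      (Tendsto (fun T : ℝ => 1 / T * ∫ t in T..(2 * T), |windowMean (U T) T t - 1|) atTop (𝓝 0) ↔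
        Tendsto (fun T : ℝ => Real.log (U T) / Real.sqrt (Real.log (Real.log T))) atTop atTop)) :=
  ⟨_root_.Pool.Agent.Q80.EW.finX,
    _root_.Pool.Agent.Q80.EW.all,
    _root_.Pool.Agent.Q251.EW.t_COR1 _root_.Pool.Agent.Q80.EW.all _root_.Pool.Agent.Q280.EW.t_HLW
      _root_.Pool.Agent.Q251.EW.t_EF,
    _root_.Pool.Agent.Q251.EW.t_COR2 _root_.Pool.Agent.Q80.EW.all _root_.Pool.Agent.Q280.EW.t_HLW
      _root_.Pool.Agent.Q251.EW.t_EF⟩

end

end Pool.Agent.Results.MP_f9aece_nt.ErfLawValues
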