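import Pool.Agent.Q276.KZ.All

set_option autoImplicit false

/-!
MP_f9aece_nt: the moments of zeta on the critical line of small order, with a rate.

There is a constant `C` such that for every real `x` and all large `T`, simultaneously for all real orders
`0 < β ≤ 2`, the moment `a(T) = ∫_0^1 |ζ(1/2 + ix + iuT)|^β du` is
`(log T)^(β²/4) (1 + O(β log (4/β)) + O((log T)^(-1/7)))`, with constants `C` and `1`; the second error term is
not needed if `β ≥ (log T)^(-1/6)`. Nothing is assumed.

Proof. Blocks of primes up to `T^(1/K²)`, `K` between `log (1/β)` and `1/β`. Upper bound: a pointwise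
inequality `|ζ|^(2k) ≤ (1 + O(k²)) (|ζ|² X)^k Y^(1-k)`, in which `X`, `Y` are finite sums of squares of short
Dirichlet polynomials, Hoelder's inequality, and the mollified second moment up to a constant, which is raised
to the power `k = β/2`. Lower bound: a little to the right of the line the mollified zeta function is close to
`1` in the mean with respect to the tilted measure; the Poisson integral of the half plane for the `β`-th
power of a Dirichlet polynomial leads back to the line.
-/

open Filter

theorem Pool.Agent.Results.MP_f9aece_nt.SmallOrdersWithRate.result :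
    ∃ C : ℝ, 0 < C ∧ ∀ x : ℝ, ∀ᶠ T : ℝ in atTop,
      (∀ β : ℝ, Real.log T ^ (-(1 / 6) : ℝ) ≤ β → β ≤ 2 →
        |(∫ u in (0:ℝ)..1, ‖riemannZeta (1 / 2 + x * Complex.I + (u * T) * Complex.I)‖ ^ β) /
            Real.log T ^ (β ^ 2 / 4) - 1| ≤ C * β * Real.log (4 / β)) ∧
      (∀ β : ℝ, 0 < β → β ≤ 2 →
        |(∫ u in (0:ℝ)..1, ‖riemannZeta (1 / 2 + x * Complex.I + (u * T) * Complex.I)‖ ^ β) /
            Real.log T ^ (β ^ 2 / 4) - 1| ≤ C * β * Real.log (4 / β) + Real.log T ^ (-(1 / 7) : ℝ)) := by
  obtain ⟨C, hC, h⟩ := Pool.Agent.Q251.KZ.t_DY Pool.Agent.Q276.KZ.dyadic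
  refine ⟨C, hC, fun x => ?_⟩
  filter_upwards [h x, Pool.Agent.Q75.KZ.t_TI x C hC (h x), eventually_gt_atTop (3 : ℝ)] with T h1 h2 hT
  have hL : 0 < Real.log T := Real.log_pos (by linarith)
  have key : ∀ (A P e : ℝ), 0 < P → |A - P| ≤ e * P → |A / P - 1| ≤ e := by
    intro A P e hP hA
    have e1 : A / P - 1 = (A - P) / P := by field_simp
    rw [e1, abs_div, abs_of_pos hP, div_le_iff₀ hP]
    exact hA
  constructor
  · intro β hb hb2
    exact key _ _ _ (Real.rpow_pos_of_pos hL _) (h1 β hb hb2)
  · intro β hb hb2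
    exact key _ _ _ (Real.rpow_pos_of_pos hL _) (h2 β hb hb2)
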