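import Pool.Agent.Q255.FM.Num4
import Pool.Agent.Q255.FM.Win3

set_option autoImplicit false

/-!
MP_f9aece_nt, exponents `β = 2/n`, `n ≥ 3`: unconditional two-sided bounds of the predicted order
with explicit constants that do not depend on `n`, also for short intervals.
-/

namespace Pool.Agent.Results.MP_f9aece_nt.UnitFractions

open Filter MeasureTheory

/-- `c_n = Γ(1 + 1/n²)⁻¹ ∏_p (1 - 1/p)^{1/n²} ∑_m (Γ(1/n + m) / (Γ(1/n) m!))² p^{-m}` -/
noncomputable def cc (n : ℕ) : ℝ :=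
  (∏' p : Nat.Primes, ((1 - 1 / (p : ℝ)) ^ (1 / (n : ℝ) ^ 2) *
    ∑' m : ℕ, (Real.Gamma (1 / (n : ℝ) + m) / (Real.Gamma (1 / (n : ℝ)) * (m.factorial : ℝ))) ^ 2 *
      (1 / (p : ℝ)) ^ m)) / Real.Gamma (1 + 1 / (n : ℝ) ^ 2)

/-- the moment `a(T)` of order `β` -/
noncomputable def a (β x T : ℝ) : ℝ :=
  ∫ u in (0 : ℝ)..1, ‖riemannZeta (1 / 2 + x * Complex.I + (u * T) * Complex.I)‖ ^ β

lemma lc_gamma (κ : ℝ) (hκ : 0 < κ) (m : ℕ) :
    Pool.Agent.H306R2.lc κ m = Real.Gamma (κ + m) / (Real.Gamma κ * (m.factorial : ℝ)) := by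
  have hG : Real.Gamma κ ≠ 0 := (Real.Gamma_pos_of_pos hκ).ne'
  unfold Pool.Agent.H306R2.lc
  induction m with
  | zero => simp [hG]
  | succ m ih =>
    rw [Finset.prod_range_succ, ih]
    have h1 : κ + ((m + 1 : ℕ) : ℝ) = (κ + m) + 1 := by push_cast; ring
    have h2 : κ + (m : ℝ) ≠ 0 := by positivity
    rw [h1, Real.Gamma_add_one h2, Nat.factorial_succ]
    have h3 : (m.factorial : ℝ) ≠ 0 := by exact_mod_cast m.factorial_ne_zero
    have h4 : (m : ℝ) + 1 ≠ 0 := by positivity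
    push_cast
    field_simp

lemma sq_eq (n : ℕ) : (1 / (n : ℝ)) ^ 2 = 1 / (n : ℝ) ^ 2 := by rw [div_pow, one_pow]

lemma AA_eq {n : ℕ} (hn : 0 < n) : Pool.Agent.Q255.FM.AA n = cc n := by
  unfold Pool.Agent.Q255.FM.AA cc Pool.Agent.H306R2.aF
  rw [sq_eq, add_comm]
  congr 1
  refine tprod_congr fun p => ?_
  congr 1
  refine tsum_congr fun m => ?_
  rw [lc_gamma _ (by positivity)]

open Pool.Agent.Q255.FM in
/-- lower bounds, all `n ≥ 3` -/
lemma lower {n : ℕ} (hn : 3 ≤ n) :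
    (∀ᶠ T : ℝ in atTop, 0.73701 * AA n * (T * Real.log T ^ ((1 / (n : ℝ)) ^ 2)) ≤ MM n T) ∧
    (∃ B : ℝ, 0 < B ∧ ∀ᶠ T : ℝ in atTop, ∀ U : ℝ, Real.log T ^ B ≤ U → U ≤ T →
      0.73701 * AA n * (U * Real.log U ^ ((1 / (n : ℝ)) ^ 2)) ≤
        ∫ t in T..(T + U), ‖riemannZeta (1 / 2 + t * Complex.I)‖ ^ (2 / (n : ℝ))) := by
  have hn2 : 2 ≤ n := by omega
  obtain rfl | rfl | rfl | h6 : n = 3 ∨ n = 4 ∨ n = 5 ∨ 6 ≤ n := by omega
  · exact ⟨moments_lower hn2 (by norm_num) (by norm_num) (by norm_num) hcond3 (by norm_num),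
      win_lower hn2 (by norm_num) (by norm_num) (by norm_num) hcond3 (by norm_num)⟩
  · exact ⟨moments_lower hn2 (by norm_num) (by norm_num) (by norm_num) hcond4 (by norm_num),
      win_lower hn2 (by norm_num) (by norm_num) (by norm_num) hcond4 (by norm_num)⟩
  · exact ⟨moments_lower hn2 (by norm_num) (by norm_num) (by norm_num) hcond5 (by norm_num),
      win_lower hn2 (by norm_num) (by norm_num) (by norm_num) hcond5 (by norm_num)⟩
  · have hn0 : (0 : ℝ) < n := by exact_mod_cast (by omega : 0 < n)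
    exact ⟨moments_lower hn2 (by norm_num) (by positivity) (by linarith) (hcond6 h6) (by norm_num),
      win_lower hn2 (by norm_num) (by positivity) (by linarith) (hcond6 h6) (by norm_num)⟩

open Pool.Agent.Q255.FM in
theorem result (n : ℕ) (hn : 3 ≤ n) :
    0 < cc n ∧
    -- the moment `a(T)` of order `β = 2/n`: two-sided bounds, constants independent of `n`
    (∀ x : ℝ, ∀ᶠ T : ℝ in atTop,
      0.737 * cc n * Real.log T ^ (1 / (n : ℝ) ^ 2) ≤ a (2 / (n : ℝ)) x T ∧
      a (2 / (n : ℝ)) x T ≤ 4.83 * cc n * Real.log T ^ (1 / (n : ℝ) ^ 2)) ∧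
    -- better constants for `β = 2/3` and `β = 1/2`
    (n = 3 → ∀ x : ℝ, ∀ᶠ T : ℝ in atTop, a (2 / 3) x T ≤ 2.66 * cc 3 * Real.log T ^ ((1 : ℝ) / 9)) ∧
    (n = 4 → ∀ x : ℝ, ∀ᶠ T : ℝ in atTop, a (1 / 2) x T ≤ 3 * cc 4 * Real.log T ^ ((1 : ℝ) / 16)) ∧
    -- lower bound on all intervals of length between a power of `log T` and `T`
    (∃ B : ℝ, 0 < B ∧ ∀ᶠ T : ℝ in atTop, ∀ U : ℝ, Real.log T ^ B ≤ U → U ≤ T →
      0.737 * cc n * (U * Real.log U ^ (1 / (n : ℝ) ^ 2)) ≤
        ∫ t in T..(T + U), ‖riemannZeta (1 / 2 + t * Complex.I)‖ ^ (2 / (n : ℝ))) ∧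
    -- upper bound on intervals of length at least `T^α`, `α > 1/2`
    (∀ α : ℝ, 1 / 2 < α → ∀ᶠ T : ℝ in atTop, ∀ U : ℝ, T ^ α ≤ U → U ≤ T →
      ∫ t in T..(T + U), ‖riemannZeta (1 / 2 + t * Complex.I)‖ ^ (2 / (n : ℝ)) ≤
        8.4 * α / (2 * α - 1) * cc n * (U * Real.log U ^ (1 / (n : ℝ) ^ 2))) := by
  have hn2 : 2 ≤ n := by omega
  have hn' : 0 < n := by omega
  have hn0 : (0 : ℝ) < n := by exact_mod_cast hn'
  have hpos : 0 < cc n := by rw [← AA_eq hn']; exact AA_pos hn'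
  obtain ⟨hl1, B, hB, hl2⟩ := lower hn
  have hlocal := local_upper2 hn2 (β := 100001 / 100000) (c := 22 / 25 * n) (C := 4.829)
    (by positivity) (by norm_num) (hC_unif hn')
  have hup := moments_upper_gen hn2 (β' := 100001 / 100000) (C1 := 4.829) (C := 4.8295)
    (by norm_num) (by norm_num) (by norm_num) hlocal
  refine ⟨hpos, ?_, ?_, ?_, ⟨B, hB, ?_⟩, ?_⟩
  · intro x
    have h1 := shift_lower (y := 0.737) hn' (by norm_num) (by norm_num) hl1 x
    have h2 := shift_upper (C := 4.83) hn' (by norm_num) (by norm_num) hup x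
    filter_upwards [h1, h2] with T a1 a2
    rw [AA_eq hn', sq_eq] at a1 a2
    exact ⟨a1, a2⟩
  · rintro rfl x
    have h := moments_upper (n := 3) (by norm_num) (β' := 2001 / 2000) (c := 33 / 20) (d := 9 / 4)
      (C := 2.655) (by norm_num) (by norm_num) (by norm_num) (by norm_num) hC3
    have h2 := shift_upper (C := 2.66) (by norm_num) (by norm_num) (by norm_num) h x
    filter_upwards [h2] with T a2
    rw [AA_eq (by norm_num)] at a2
    have e1 : (2 / ((3 : ℕ) : ℝ)) = 2 / 3 := by norm_num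
    have e2 : (1 / ((3 : ℕ) : ℝ)) ^ 2 = 1 / 9 := by norm_num
    rw [e1, e2] at a2
    exact a2
  · rintro rfl x
    have h := moments_upper (n := 4) (by norm_num) (β' := 2001 / 2000) (c := 12 / 5) (d := 12 / 5)
      (C := 2.997) (by norm_num) (by norm_num) (by norm_num) (by norm_num) hC4
    have h2 := shift_upper (C := 3) (by norm_num) (by norm_num) (by norm_num) h x
    filter_upwards [h2] with T a2
    rw [AA_eq (by norm_num)] at a2
    have e1 : (2 / ((4 : ℕ) : ℝ)) = 1 / 2 := by norm_num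
    have e2 : (1 / ((4 : ℕ) : ℝ)) ^ 2 = 1 / 16 := by norm_num
    rw [e1, e2] at a2
    exact a2
  · filter_upwards [hl2, Real.tendsto_log_atTop.eventually_gt_atTop 1] with T hT hlT U hU hUT
    have h1 := hT U hU hUT
    rw [AA_eq hn', sq_eq] at h1
    refine le_trans ?_ h1
    have hU1 : 1 ≤ U := le_trans (Real.one_le_rpow hlT.le hB.le) hU
    have hlU : 0 ≤ Real.log U := Real.log_nonneg hU1
    have : 0 ≤ cc n * (U * Real.log U ^ (1 / (n : ℝ) ^ 2)) := by positivity
    nlinarith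
  · intro α hα
    have hα0 : 0 < α := by linarith
    have h21 : 0 < 2 * α - 1 := by linarith
    have hx : 0 < 2 - 1 / α := by
      have : 2 - 1 / α = (2 * α - 1) / α := by field_simp
      rw [this]; positivity
    set β' : ℝ := 1 / α + 1 / 1000 * (2 - 1 / α) with hβ'
    have h1 : 1 < β' * α := by
      have : β' * α = 1 + 1 / 1000 * (2 - 1 / α) * α := by rw [hβ']; field_simp
      rw [this]
      have : 0 < 1 / 1000 * (2 - 1 / α) * α := by positivity
      linarith
    have h2 : 2 - β' = 999 / 1000 * ((2 * α - 1) / α) := by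
      rw [hβ']; field_simp; ring
    have h3 : β' < 2 := by
      have : 0 < 999 / 1000 * ((2 * α - 1) / α) := by positivity
      linarith
    have he : Real.exp 2 < 7.3891 := by
      have h := exp_le_q 2 30 2 (738909 / 100000) (by norm_num) (by decide +kernel)
      push_cast at h
      norm_num at h ⊢
      linarith
    have hC : (Real.exp 2 + 1) / (2 - β') < 8.398 * (α / (2 * α - 1)) := by
      rw [h2, div_lt_iff₀ (by positivity)]
      have e0 : (α / (2 * α - 1)) * ((2 * α - 1) / α) = 1 := by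
        rw [div_mul_div_comm, mul_comm α, div_self (by positivity)]
      have e : 8.398 * (α / (2 * α - 1)) * (999 / 1000 * ((2 * α - 1) / α)) = 8.398 * (999 / 1000) := by
        calc 8.398 * (α / (2 * α - 1)) * (999 / 1000 * ((2 * α - 1) / α)) =
            8.398 * (999 / 1000) * ((α / (2 * α - 1)) * ((2 * α - 1) / α)) := by ring
          _ = _ := by rw [e0, mul_one]
      rw [e]
      norm_num at he ⊢
      linarith
    have hr : 0 < α / (2 * α - 1) := by positivity
    have hloc := local_upper2 hn2 (β := β') (c := n) (C := 8.398 * (α / (2 * α - 1))) hn0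
      (by positivity) (hC_win hn' h3 hC)
    have h := win_upper_gen hn2 (β := α) (β' := β') (C1 := 8.398 * (α / (2 * α - 1)))
      (C := 8.4 * α / (2 * α - 1)) hα0 h1 (by positivity) (by
        rw [mul_div_assoc]
        exact mul_lt_mul_of_pos_right (by norm_num) hr) hloc
    filter_upwards [h] with T hT U hU hUT
    have h4 := hT U hU hUT
    rw [AA_eq hn', sq_eq] at h4
    exact h4

end Pool.Agent.Results.MP_f9aece_nt.UnitFractions
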